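import Mathlib
import Pool.Agent.Helper20.NP.Stmts

set_option autoImplicit false

/-! Module PWB: the inequality for the second break of a cyclic extension of degree `p ^ 2`. -/

namespace Pool.Agent.Helper20.NP

open Pool.Agent.Helper21.DN

universe u

/-- `(σ - 1) ^ (p - 1) = 1 + σ + ... + σ ^ (p - 1)` in characteristic `p` -/
theorem pwb_sum (p : ℕ) [hp : Fact p.Prime] {L : Type u} [Field L] [CharP L p] (σ : L →+* L) (x : L) :
    ∑ l ∈ Finset.range p, (⇑σ)^[l] x = (fun y => σ y - y)^[p - 1] x := by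
  let _ : Algebra (ZMod p) L := ZMod.algebra L p
  let τ : Module.End (ZMod p) L := (σ : L →+ L).toZModLinearMap p
  have hτ : ∀ y, τ y = σ y := fun y => rfl
  have hpoly : (∑ l ∈ Finset.range p, (Polynomial.X : Polynomial (ZMod p)) ^ l) =
      (Polynomial.X - 1) ^ (p - 1) := by
    have h1 : (Polynomial.X - 1 : Polynomial (ZMod p)) ≠ 0 := by
      have := Polynomial.X_sub_C_ne_zero (1 : ZMod p)
      rwa [Polynomial.C_1] at this
    apply mul_left_cancel₀ h1
    rw [← pow_succ', Nat.sub_add_cancel hp.out.one_lt.le, mul_comm, geom_sum_mul, sub_pow_char,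
      one_pow]
  have h2 := congrArg (fun P => (Polynomial.aeval τ P) x) hpoly
  simp only [map_sum, map_pow, Polynomial.aeval_X, map_sub, map_one, LinearMap.sum_apply] at h2
  have h3 : ∀ (l : ℕ) (y : L), (τ ^ l) y = (⇑σ)^[l] y := by
    intro l y
    rw [Module.End.pow_apply]
    rfl
  have h4 : ∀ (l : ℕ) (y : L), ((τ - 1) ^ l) y = (fun y => σ y - y)^[l] y := by
    intro l y
    rw [Module.End.pow_apply]
    rfl
  simp only [h3, h4] at h2
  exact h2

theorem pwb_iter {L : Type u} [Field L] (v : AddValuation L (WithTop ℤ)) (σ : L → L) (m : ℕ)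
    (h : ∀ x, v x + ((m : ℤ) : WithTop ℤ) ≤ v (σ x - x)) (l : ℕ) (x : L) :
    v x + (((l * m : ℕ) : ℤ) : WithTop ℤ) ≤ v ((fun y => σ y - y)^[l] x) := by
  induction l with
  | zero => simp
  | succ l ih =>
    rw [Function.iterate_succ_apply']
    refine le_trans ?_ (h _)
    refine le_trans (le_of_eq ?_) (add_le_add_left ih _)
    rw [add_assoc]
    congr 1
    rw [← WithTop.coe_add]
    congr 1
    push_cast
    ring

theorem pwb_main (p : ℕ) [hp : Fact p.Prime] (k L : Type u) [Field k] [CharP k p] [IsAlgClosed k]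
    [Field L] [CharP L p] (κ : k →+* L) (v : AddValuation L (WithTop ℤ)) (hv : TV κ v)
    (σ : L →+* L) (hinv : ∀ x, v (σ x) = v x) (m : ℕ) (hm : 1 ≤ m)
    (hs : ∀ x, v x + ((m : ℤ) : WithTop ℤ) ≤ v (σ x - x)) (hord : ∀ x, (⇑σ)^[p] x = x)
    (h1 : ST_RED.{u}) (f g : L) (hfg : σ f - f = g ^ p - g)
    (hε : ∑ l ∈ Finset.range p, (⇑σ)^[l] g ≠ 0) :
    ∃ (h : L) (n : ℕ), ¬ p ∣ n ∧
      v (f - (h ^ p - h)) = ((-(n : ℤ) : ℤ) : WithTop ℤ) ∧ (p ^ 2 - p + 1) * m ≤ n := by
  have hp2 : 2 ≤ p := hp.out.two_le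
  have hpow : ∀ (l : ℕ) (x y : L), (⇑σ)^[l] (x - y) = (⇑σ)^[l] x - (⇑σ)^[l] y := fun l x y => by
    have := map_sub (σ ^ l) x y
    rwa [RingHom.coe_pow] at this
  have hpow2 : ∀ (l : ℕ) (x : L), (⇑σ)^[l] (x ^ p) = ((⇑σ)^[l] x) ^ p := fun l x => by
    have := map_pow (σ ^ l) x p
    rwa [RingHom.coe_pow] at this
  have htel : ∀ x : L, ∑ l ∈ Finset.range p, (⇑σ)^[l] (σ x - x) = 0 := by
    intro x
    have e1 : ∀ l, (⇑σ)^[l] (σ x - x) = (⇑σ)^[l + 1] x - (⇑σ)^[l] x := by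
      intro l
      rw [hpow, ← Function.iterate_succ_apply]
    simp only [e1]
    rw [Finset.sum_range_sub (fun l => (⇑σ)^[l] x), hord]
    simp
  set ε := ∑ l ∈ Finset.range p, (⇑σ)^[l] g with hεd
  have hεp : ε ^ p = ε := by
    have e1 : ε ^ p = ∑ l ∈ Finset.range p, (⇑σ)^[l] (g ^ p) := by
      rw [hεd, sum_pow_char]
      exact Finset.sum_congr rfl (fun l _ => (hpow2 l g).symm)
    have e2 : g ^ p = (σ f - f) - (-g) := by rw [hfg]; ring
    rw [e1]
    have e3 : ∀ l, (⇑σ)^[l] (g ^ p) = (⇑σ)^[l] (σ f - f) - (⇑σ)^[l] (-g) := by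
      intro l
      rw [e2, hpow]
    simp only [e3]
    rw [Finset.sum_sub_distrib, htel, zero_sub]
    have e4 : ∀ l, (⇑σ)^[l] (-g) = -((⇑σ)^[l] g) := fun l => by
      have := map_neg (σ ^ l) g
      rwa [RingHom.coe_pow] at this
    simp only [e4]
    rw [Finset.sum_neg_distrib, neg_neg]
  have hvε : v ε = 0 := by
    have e1 : v ε ≠ ⊤ := (AddValuation.ne_top_iff v).mpr hε
    obtain ⟨a, ha⟩ := WithTop.ne_top_iff_exists.mp e1
    have e2 : p • v ε = v ε := by rw [← AddValuation.map_pow, hεp]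
    rw [← ha] at e2 ⊢
    have e3 : (p : ℤ) * a = a := by
      have : ((p • a : ℤ) : WithTop ℤ) = (a : WithTop ℤ) := by
        rw [WithTop.coe_nsmul]; exact e2
      have := WithTop.coe_injective this
      simpa using this
    have e4 : a = 0 := by
      have h5 : ((p : ℤ) - 1) * a = 0 := by linarith [e3]
      rcases mul_eq_zero.mp h5 with h6 | h6
      · have : (p : ℤ) = 1 := by linarith
        have : p = 1 := by exact_mod_cast this
        omega
      · exact h6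
    rw [e4]
    rfl
  obtain ⟨h, hh, -⟩ := h1 p k L κ v hv f
  set F := f - (h ^ p - h) with hF
  set g' := g - (σ h - h) with hg'
  have hFg : σ F - F = g' ^ p - g' := by
    have e1 : (σ h - h) ^ p = σ h ^ p - h ^ p := sub_pow_char _ _
    have e2 : g' ^ p = g ^ p - (σ h - h) ^ p := sub_pow_char _ _
    rw [e2, e1, hF, hg', map_sub, map_sub, map_pow]
    linear_combination hfg
  have hε' : ε = (fun y => σ y - y)^[p - 1] g' := by
    rw [← pwb_sum, hg']
    simp only [hpow _ g]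
    rw [Finset.sum_sub_distrib, htel, sub_zero]
  have hvg : v g' + ((((p - 1) * m : ℕ) : ℤ) : WithTop ℤ) ≤ 0 := by
    have := pwb_iter v σ m hs (p - 1) g'
    rw [← hε', hvε] at this
    exact this
  have hg0 : v g' ≠ ⊤ := by
    intro h
    rw [h, top_add, top_le_iff] at hvg
    exact WithTop.zero_ne_top hvg
  obtain ⟨a, ha⟩ := WithTop.ne_top_iff_exists.mp hg0
  have ha1 : a + ((p - 1) * m : ℕ) ≤ 0 := by
    rw [← ha] at hvg
    exact_mod_cast hvg
  have hpm : 1 ≤ (p - 1) * m := Nat.one_le_iff_ne_zero.mpr (Nat.mul_ne_zero (by omega) (by omega))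
  have ha2 : a < 0 := by
    have : (1 : ℤ) ≤ ((p - 1) * m : ℕ) := by exact_mod_cast hpm
    linarith
  have hvgp : v (g' ^ p) = (((p : ℤ) * a : ℤ) : WithTop ℤ) := by
    rw [AddValuation.map_pow, ← ha, ← WithTop.coe_nsmul, nsmul_eq_mul]
  have hlt : v (g' ^ p) < v g' := by
    rw [hvgp, ← ha]
    have h2 : (2 : ℤ) ≤ p := by exact_mod_cast hp2
    exact WithTop.coe_lt_coe.mpr (by nlinarith)
  have hvd : v (σ F - F) = (((p : ℤ) * a : ℤ) : WithTop ℤ) := by
    rw [hFg, AddValuation.map_sub_eq_of_lt_left v hlt, hvgp]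
  have hvF := hs F
  rw [hvd] at hvF
  have hF0 : v F ≠ ⊤ := by
    intro h
    rw [h, top_add, top_le_iff] at hvF
    exact WithTop.coe_ne_top hvF
  obtain ⟨b, hb⟩ := WithTop.ne_top_iff_exists.mp hF0
  have hb1 : b + m ≤ p * a := by
    rw [← hb] at hvF
    exact_mod_cast hvF
  have hcast : (((p - 1) * m : ℕ) : ℤ) = ((p : ℤ) - 1) * m := by
    have : 1 ≤ p := by omega
    push_cast [Nat.cast_sub this]
    ring
  have hb2 : b ≤ -(((p : ℤ) ^ 2 - p + 1) * m) := by
    rw [hcast] at ha1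
    have h2 : (0 : ℤ) ≤ p := by positivity
    have h3 : (p : ℤ) * a ≤ p * (-(((p : ℤ) - 1) * m)) := mul_le_mul_of_nonneg_left (by linarith) h2
    nlinarith
  have hb3 : b < 0 := by
    have h2 : (2 : ℤ) ≤ p := by exact_mod_cast hp2
    have h3 : (1 : ℤ) ≤ m := by exact_mod_cast hm
    have h4 : (1 : ℤ) ≤ ((p : ℤ) ^ 2 - p + 1) * m := by nlinarith [sq_nonneg ((p : ℤ) - 1)]
    linarith
  rcases hh with h0 | ⟨n, hn1, hn2, hn3⟩
  · exfalso
    rw [← hb] at h0
    have : (0 : ℤ) ≤ b := by exact_mod_cast h0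
    linarith
  · refine ⟨h, n, hn2, hn3, ?_⟩
    have e1 : b = -(n : ℤ) := by
      have : ((b : ℤ) : WithTop ℤ) = ((-(n : ℤ) : ℤ) : WithTop ℤ) := by rw [hb, hn3]
      exact WithTop.coe_injective this
    have e2 : ((p : ℤ) ^ 2 - p + 1) * m ≤ n := by linarith
    have e3 : (((p ^ 2 - p + 1) * m : ℕ) : ℤ) = ((p : ℤ) ^ 2 - p + 1) * m := by
      have : p ≤ p ^ 2 := by nlinarith
      push_cast [Nat.cast_sub this]
      ring
    rw [← e3] at e2
    exact_mod_cast e2

theorem st_PWB (h1 : ST_RED.{u}) (h3 : ST_S1.{u}) : ST_PWB.{u} := by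
  intro p hp k K L _ _ _ _ _ _ _ _ κ v hv hfin σ f g hσ hfg hε
  have hκ : CharP L p := charP_of_injective_ringHom ((algebraMap K L).comp κ).injective p
  have hcard : Nat.card (L ≃ₐ[K] L) = p := by rw [IsGalois.card_aut_eq_finrank, hfin]
  have hσp : σ ^ p = 1 := by
    rw [← hcard]
    exact pow_card_eq_one'
  have hiter : ∀ (l : ℕ) (x : L), (σ ^ l) x = (⇑σ)^[l] x := by
    intro l
    induction l with
    | zero => intro x; rfl
    | succ l ih =>
      intro x
      rw [pow_succ, Function.iterate_succ_apply, ← ih]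
      rfl
  have hord : ∀ x, (⇑σ)^[p] x = x := by
    intro x
    rw [← hiter, hσp]
    rfl
  have hne : ∃ x, σ x ≠ x := by
    by_contra hcon
    apply hσ
    ext x
    by_contra hx
    exact hcon ⟨x, hx⟩
  obtain ⟨hs1, hs2, -⟩ := h3 p k L ((algebraMap K L).comp κ) v hv.tv
    ((σ : L ≃+* L) : L →+* L) (fun c => σ.commutes (κ c)) (fun x => hv.inv σ x)
    ⟨1, fun x => by rw [pow_one]; exact hord x⟩ hne
  exact pwb_main p k L ((algebraMap K L).comp κ) v hv.tv ((σ : L ≃+* L) : L →+* L)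
    (fun x => hv.inv σ x) (s v σ) hs1 hs2 hord h1 f g hfg hε

end Pool.Agent.Helper20.NP
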